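import Pool.Agent.Helper3.TD.DensK

/-! Uniform power saving for the integers whose orbit stays above a bound. -/

namespace Pool.Agent.Helper1.PW

open Pool.Agent.Helper3.ND Pool.Agent.Helper3.TD Filter Topology

theorem exists_Y0 {δ A : ℝ} (hδ : 0 < δ) : ∃ Y0 : ℝ, 2 ≤ Y0 ∧ ∀ Y : ℝ, Y0 ≤ Y → A ≤ Y ^ δ ∧ 8 * Real.log Y ≤ Y ^ δ := by
  have h1 : ∀ᶠ Y : ℝ in atTop, A ≤ Y ^ δ := (tendsto_rpow_atTop hδ).eventually_ge_atTop A
  have h2 : ∀ᶠ Y : ℝ in atTop, ‖Real.log Y‖ ≤ 1 / 8 * ‖Y ^ δ‖ := (isLittleO_log_rpow_atTop hδ).def (by norm_num)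
  obtain ⟨Y0, hY0⟩ := eventually_atTop.mp (h1.and h2)
  refine ⟨max Y0 2, le_max_right _ _, fun Y hY => ?_⟩
  obtain ⟨h3, h4⟩ := hY0 Y (le_trans (le_max_left _ _) hY)
  have hY2 : 2 ≤ Y := le_trans (le_max_right _ _) hY
  refine ⟨h3, ?_⟩
  rw [Real.norm_of_nonneg (Real.log_nonneg (by linarith)), Real.norm_of_nonneg (Real.rpow_nonneg (by linarith) _)] at h4
  linarith

theorem pow_large {θ : ℝ} (hθ0 : 0 < θ) (hθ : θ < 1 / 22) : ∃ C : ℝ, 0 < C ∧ ∃ Y0 : ℝ, 2 ≤ Y0 ∧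
    ∀ Y : ℝ, Y0 ≤ Y → ∀ x : ℝ, 1 ≤ x → cntL Y x ≤ C * x * Y ^ (-θ) := by
  obtain ⟨δ, hδ⟩ : ∃ δ : ℝ, δ = (1 / 22 - θ) / 2 := ⟨_, rfl⟩
  have hδ0 : 0 < δ := by rw [hδ]; linarith
  obtain ⟨q, hq⟩ := exists_nat_ge (θ / δ)
  rw [div_le_iff₀ hδ0] at hq
  obtain ⟨C1, hC1, A0, hA0, H⟩ := prop_all q
  obtain ⟨Y0, hY02, hY0⟩ := exists_Y0 (A := A0) hδ0
  refine ⟨6 * (10 ^ 13 + C1) + 7 + 10 ^ 12, by positivity, Y0, hY02, ?_⟩
  intro Y hYY x hx
  obtain ⟨hw1, hw2⟩ := hY0 Y hYY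
  have hY : 2 ≤ Y := le_trans hY02 hYY
  have hYpos : 0 < Y := by linarith
  have hY1 : 1 ≤ Y := by linarith
  obtain ⟨w, hw⟩ : ∃ w : ℝ, w = Y ^ δ := ⟨_, rfl⟩
  rw [← hw] at hw1 hw2
  have hw5 : (10 ^ 5 : ℝ) ≤ w := by linarith
  have hwpos : 0 < w := by linarith
  obtain ⟨I, hI⟩ : ∃ I : ℝ, I = Y ^ (-θ) := ⟨_, rfl⟩
  have hI0 : 0 < I := by rw [hI]; exact Real.rpow_pos_of_pos hYpos _
  have hgoal : (6 * (10 ^ 13 + C1) + 7 + 10 ^ 12) * x * Y ^ (-θ) = (6 * (10 ^ 13 + C1) + 7 + 10 ^ 12) * I * x := by rw [hI]; ring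
  rw [hgoal]
  -- elementary relations
  have hwI : w ^ 2 * Y ^ (-(1 / 22) : ℝ) = I := by
    rw [hw, hI, ← Real.rpow_natCast, ← Real.rpow_mul hYpos.le, ← Real.rpow_add hYpos]
    congr 1
    rw [hδ]
    push_cast
    ring
  have hwq : 1 / w ^ q ≤ I := by
    rw [hw, hI, ← Real.rpow_natCast, ← Real.rpow_mul hYpos.le, one_div, ← Real.rpow_neg hYpos.le]
    apply Real.rpow_le_rpow_of_exponent_le hY1
    linarith
  have hew : Real.exp (-w) ≤ I := by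
    rw [hI, Real.rpow_def_of_pos hYpos]
    apply Real.exp_le_exp.mpr
    have hl : 0 ≤ Real.log Y := Real.log_nonneg hY1
    nlinarith
  have hYp : 0 < Y ^ (-(1 / 22) : ℝ) := Real.rpow_pos_of_pos hYpos _
  obtain ⟨N0, hN0⟩ : ∃ N0, N0 = ⌈w⌉₊ := ⟨_, rfl⟩
  have hN1 : w ≤ N0 := by rw [hN0]; exact Nat.le_ceil _
  have hN2 : (N0 : ℝ) < w + 1 := by rw [hN0]; exact Nat.ceil_lt_add_one (by positivity)
  have hYexp : Y ≤ Real.exp ((N0 : ℝ) / 8) := by
    rw [← Real.log_le_iff_le_exp hYpos]; linarith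
  -- narrow windows
  have hnar := H N0 (by linarith) Y hYpos.le hYexp (PhiJ Y) (PhiJ_fam Y) (10 ^ 13 * I) (by positivity) (by
    intro b hb1 hb2 j hj
    refine le_trans (base_boundK (by linarith) (by linarith) hj) ?_
    calc 4 * 10 ^ 11 * (b + 1) ^ 2 * Y ^ (-(1 / 22) : ℝ) ≤ 4 * 10 ^ 11 * (5 * w) ^ 2 * Y ^ (-(1 / 22) : ℝ) := by
          have : (b + 1) ^ 2 ≤ (5 * w) ^ 2 := pow_le_pow_left₀ (by linarith) (by linarith) 2
          gcongr
      _ = 10 ^ 13 * (w ^ 2 * Y ^ (-(1 / 22) : ℝ)) := by ring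
      _ = 10 ^ 13 * I := by rw [hwI])
  have hB : 10 ^ 13 * I + C1 / (N0 : ℝ) ^ q ≤ (10 ^ 13 + C1) * I := by
    have h1 : C1 / (N0 : ℝ) ^ q ≤ C1 * I := by
      have h2 : C1 / (N0 : ℝ) ^ q ≤ C1 / w ^ q := by
        apply div_le_div_of_nonneg_left hC1.le (by positivity)
        exact pow_le_pow_left₀ hwpos.le hN1 q
      refine le_trans h2 ?_
      rw [div_eq_mul_one_div]
      exact mul_le_mul_of_nonneg_left hwq hC1.le
    linarith
  obtain ⟨X, hX⟩ : ∃ X, X = ⌊x⌋₊ := ⟨_, rfl⟩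
  have hX1 : 1 ≤ X := by rw [hX]; exact Nat.le_floor (by exact_mod_cast hx)
  have hXr : (1 : ℝ) ≤ X := by exact_mod_cast hX1
  have hX0 : (0 : ℝ) < X := by linarith
  have hXx : (X : ℝ) ≤ x := by rw [hX]; exact Nat.floor_le (by linarith)
  have hlX : Real.log X ≤ Real.log x := Real.log_le_log hX0 hXx
  rcases le_or_gt (2 * (N0 : ℝ)) (Real.log X) with hcase | hcase
  · -- long range
    refine le_trans (cntL_le_Nc hx) ?_
    rw [← hX]
    obtain ⟨J, hJ⟩ : ∃ J, J = ⌊1000 * Real.log x⌋₊ := ⟨_, rfl⟩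
    rw [← hJ]
    have hJr : 900 * Real.log X ≤ J := by
      have : 1000 * Real.log x - 1 < J := by rw [hJ]; exact Nat.sub_one_lt_floor _
      linarith
    obtain ⟨K, hK⟩ : ∃ K, K = ⌊Real.log X - N0⌋₊ := ⟨_, rfl⟩
    have hK1' : (K : ℝ) ≤ Real.log X - N0 := by rw [hK]; exact Nat.floor_le (by linarith)
    have hK2' : Real.log X - N0 - 1 < K := by rw [hK]; exact Nat.sub_one_lt_floor _
    have h1 := Nc_upper ((PhiJ_fam Y).nonneg J) ((PhiJ_fam Y).le_one J) (δ := 1) (by norm_num) K hX1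
    have h2 : ∑ i ∈ Finset.range (K + 1), Real.exp (-(i * 1) + 1) * Gs (PhiJ Y J) 1 (Real.log X - i * 1) ≤ 6 * ((10 ^ 13 + C1) * I) := by
      have h3 : ∀ i ∈ Finset.range (K + 1), Real.exp (-(i * 1) + 1) * Gs (PhiJ Y J) 1 (Real.log X - i * 1) ≤
          Real.exp 1 * ((10 ^ 13 + C1) * I) * Real.exp (-(i * 1)) := by
        intro i hi
        rw [Finset.mem_range] at hi
        have hi' : (i : ℝ) ≤ K := by exact_mod_cast (by omega : i ≤ K)
        have hi0 : (0 : ℝ) ≤ i := by positivity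
        have h4 := hnar (Real.log X - i * 1) (by linarith) J (by linarith)
        have h5 := le_trans h4 hB
        rw [Real.exp_add]
        calc Real.exp (-(i * 1)) * Real.exp 1 * Gs (PhiJ Y J) 1 (Real.log X - i * 1) ≤
            Real.exp (-(i * 1)) * Real.exp 1 * ((10 ^ 13 + C1) * I) := mul_le_mul_of_nonneg_left h5 (by positivity)
          _ = _ := by ring
      refine le_trans (Finset.sum_le_sum h3) ?_
      rw [← Finset.mul_sum]
      have h4 := geo_upper (δ := 1) (by norm_num) (K + 1)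
      have h5 := Real.exp_one_lt_d9
      have h6 : 0 < (10 ^ 13 + C1) * I := by positivity
      calc Real.exp 1 * ((10 ^ 13 + C1) * I) * ∑ i ∈ Finset.range (K + 1), Real.exp (-(i * 1)) ≤ Real.exp 1 * ((10 ^ 13 + C1) * I) * ((1 + 1) / 1) := by gcongr
        _ ≤ 6 * ((10 ^ 13 + C1) * I) := by nlinarith
    have h3 : Real.exp (-(K * 1)) ≤ 3 * I := by
      have h4 : Real.exp (-((K : ℝ) * 1)) ≤ Real.exp (1 + -w) := Real.exp_le_exp.mpr (by linarith)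
      rw [Real.exp_add] at h4
      have h5 := Real.exp_one_lt_d9
      have h6 := Real.exp_pos (-w)
      nlinarith
    have h4 : (1 : ℝ) ≤ X * I := by
      have h5 : (1 : ℝ) ≤ X * Real.exp (-w) := by
        have h6 : Real.exp w ≤ X := by
          rw [← Real.le_log_iff_exp_le hX0]; linarith
        rw [Real.exp_neg, ← div_eq_mul_inv, one_le_div (Real.exp_pos _)]
        exact h6
      refine le_trans h5 ?_
      gcongr
    have h5 : X * ∑ i ∈ Finset.range (K + 1), Real.exp (-(i * 1) + 1) * Gs (PhiJ Y J) 1 (Real.log X - i * 1) ≤ X * (6 * ((10 ^ 13 + C1) * I)) :=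
      mul_le_mul_of_nonneg_left h2 hX0.le
    have h6 : 2 * (X * Real.exp (-(K * 1))) ≤ 2 * (X * (3 * I)) := by gcongr
    calc Nc (PhiJ Y J) X ≤ X * (6 * ((10 ^ 13 + C1) * I)) + (2 * (X * (3 * I)) + X * I) := by linarith
      _ = (6 * (10 ^ 13 + C1) + 7) * I * X := by ring
      _ ≤ (6 * (10 ^ 13 + C1) + 7) * I * x := by gcongr
      _ ≤ _ := by
          have : 0 ≤ 10 ^ 12 * I * x := by positivity
          linarith
  · -- short range
    rcases le_or_gt x 2 with h2 | h2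
    · rw [cntL_small (by linarith) hx]; positivity
    · have h3 := cntL_le_main x Y h2.le (by linarith)
      have h4 : Real.log x ≤ 5 * w := by
        have h5 : x ≤ 2 * X := by
          have := Nat.lt_floor_add_one x
          rw [← hX] at this
          linarith
        have h6 := Real.log_le_log (by linarith) h5
        rw [Real.log_mul (by norm_num) hX0.ne'] at h6
        have := Real.log_two_lt_d9
        linarith
      have h5 : 0 ≤ Real.log x := Real.log_nonneg (by linarith)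
      calc cntL Y x ≤ 4 * 10 ^ 10 * x * Real.log x ^ 2 * Y ^ (-(1 / 22) : ℝ) := h3
        _ ≤ 4 * 10 ^ 10 * x * (5 * w) ^ 2 * Y ^ (-(1 / 22) : ℝ) := by gcongr
        _ = 10 ^ 12 * x * (w ^ 2 * Y ^ (-(1 / 22) : ℝ)) := by ring
        _ = 10 ^ 12 * I * x := by rw [hwI]; ring
        _ ≤ _ := by
            have : 0 ≤ (6 * (10 ^ 13 + C1) + 7) * I * x := by positivity
            linarith

/-- **uniform power saving** -/
theorem pow_all {θ : ℝ} (hθ : θ < 1 / 22) : ∃ C : ℝ, 0 < C ∧ ∀ Y : ℝ, 1 ≤ Y → ∀ x : ℝ, 1 ≤ x → cntL Y x ≤ C * x * Y ^ (-θ) := by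
  obtain ⟨θ', hθ'⟩ : ∃ θ' : ℝ, θ' = max θ (1 / 44) := ⟨_, rfl⟩
  have h1 : θ ≤ θ' := by rw [hθ']; exact le_max_left _ _
  have h2 : 0 < θ' := by rw [hθ']; exact lt_of_lt_of_le (by norm_num) (le_max_right _ _)
  have h3 : θ' < 1 / 22 := by rw [hθ']; exact max_lt hθ (by norm_num)
  obtain ⟨C, hC, Y0, hY0, H⟩ := pow_large h2 h3
  refine ⟨C + 3 * Y0 ^ θ', by positivity, ?_⟩
  intro Y hY x hx
  have hYpos : 0 < Y := by linarith
  have hmon : Y ^ (-θ') ≤ Y ^ (-θ) := Real.rpow_le_rpow_of_exponent_le hY (by linarith)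
  refine le_trans ?_ (mul_le_mul_of_nonneg_left hmon (by positivity))
  rcases le_or_gt Y0 Y with h | h
  · refine le_trans (H Y h x hx) ?_
    have h4 : 0 < Y ^ (-θ') := Real.rpow_pos_of_pos hYpos _
    have h5 : 0 ≤ 3 * Y0 ^ θ' := by positivity
    gcongr
    linarith
  · refine le_trans (cntL_trivial hx) ?_
    have h4 : 1 ≤ Y0 ^ θ' * Y ^ (-θ') := by
      rw [Real.rpow_neg hYpos.le, ← div_eq_mul_inv, one_le_div (Real.rpow_pos_of_pos hYpos _)]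
      exact Real.rpow_le_rpow hYpos.le h.le h2.le
    have h5 : 0 ≤ C * x * Y ^ (-θ') := by positivity
    calc 3 * x ≤ 3 * x * (Y0 ^ θ' * Y ^ (-θ')) := by
          have : 0 ≤ 3 * x := by positivity
          nlinarith
      _ ≤ C * x * Y ^ (-θ') + 3 * x * (Y0 ^ θ' * Y ^ (-θ')) := by linarith
      _ = _ := by ring

/-- the form for the Syracuse map -/
theorem pow_syr {θ : ℝ} (hθ : θ < 1 / 22) : ∃ C : ℝ, 0 < C ∧ ∀ Y : ℝ, 1 ≤ Y → ∀ x : ℝ, 0 < x → ∀ S : Set ℤ,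
    (∀ N ∈ S, Odd N ∧ |(N : ℝ)| ≤ x ∧ ∀ k : ℕ, (k : ℝ) ≤ 1000 * Real.log x → Y < |((syr^[k] N : ℤ) : ℝ)|) →
    (S.ncard : ℝ) ≤ C * x * Y ^ (-θ) := by
  obtain ⟨C, hC, H⟩ := pow_all hθ
  refine ⟨C, hC, fun Y hY x hx S hS => ?_⟩
  have hYpos : 0 < Y := by linarith
  rcases lt_or_ge x 1 with h1 | h1
  · have : S = ∅ := by
      rw [Set.eq_empty_iff_forall_notMem]
      intro N hN
      obtain ⟨ho, h2, _⟩ := hS N hN
      have h3 : N ≠ 0 := by rintro rfl; simp at ho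
      have h4 : 1 ≤ |N| := Int.one_le_abs h3
      have h5 : (1 : ℝ) ≤ |(N : ℝ)| := by exact_mod_cast h4
      linarith
    rw [this, Set.ncard_empty]
    push_cast
    positivity
  · refine le_trans ?_ (H Y hY x h1)
    unfold cntL
    have hsub : S ⊆ {N : ℤ | |(N : ℝ)| ≤ x ∧ ∀ t : ℕ, (t : ℝ) ≤ 1000 * Real.log x → Y < |((T^[t] N : ℤ) : ℝ)|} := by
      intro N hN
      obtain ⟨ho, h1, h2⟩ := hS N hN
      refine ⟨h1, fun t ht => ?_⟩
      obtain ⟨k, hk, i, h3, _⟩ := T_iter_syr ho t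
      have h4 := h2 k (le_trans (by exact_mod_cast hk) ht)
      rw [h3]
      push_cast
      rw [abs_mul]
      have h5 : (1 : ℝ) ≤ |(2 : ℝ) ^ i| := by
        rw [abs_of_pos (by positivity)]
        exact one_le_pow₀ (by norm_num)
      have h6 : 0 ≤ |((syr^[k] N : ℤ) : ℝ)| := abs_nonneg _
      nlinarith
    exact_mod_cast Set.ncard_le_ncard hsub (fin_abs x _)

end Pool.Agent.Helper1.PW
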